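import Mathlib

set_option autoImplicit false

/-!
# Majority 3-partitions and degree conditions

For every `k` there is a 2-edge-coloured graph in which all red degrees and all blue degrees are at
least `k`, without a majority 3-partition.

Construction (`K ≥ 3`). A red clique on the vertices `(b, r)`, `b` in `ZMod N`, `r < 4 K`; the
vertices `(b, r)` with given `b` form a block. For every `j`, every `K`-subset `S` of block `j` and
every `K`-subset `T` of block `j + 1` there is a gadget with vertices `x1, x2, y, y'` and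
`c 0, …, c (K - 1)`:
* red edges: `c i` to `S`, `y`, `y'`; `x1` and `x2` to `S` and `T`; `x2` to `x1`, `y`, `y'`;
* blue edges: `c i` to `T`, `x1`, `x2`; `y` and `y'` to `S` and `T`; `x1` to `y`, `y'`.
If `S` lies in one part and `T` in another one, then all `c i` are in the third part, the vertices
`x1, x2, y, y'` are not, `x1` is not in the part of `x2`, `y`, `y'`, and so the latter three are
in the same part, which is impossible for `x2`. If there are no such `S`, `T`, then one part contains
more than half of every block, and this is impossible when `N` is large, because of the clique.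
-/

namespace Pool.Agent.Results.MP_0e3695_co.NoDegreeCondition

open Finset
open scoped Classical

/-- `f` is a majority 3-partition of the 2-edge-coloured graph with red edges `R` and blue edges
`B`: every vertex has at most half of its red neighbours and at most half of its blue neighbours in
its own part. -/
def IsMajority {V : Type} (R B : SimpleGraph V) (f : V → Fin 3) : Prop :=
  ∀ v, 2 * {u ∈ R.neighborSet v | f u = f v}.ncard ≤ (R.neighborSet v).ncard ∧
    2 * {u ∈ B.neighborSet v | f u = f v}.ncard ≤ (B.neighborSet v).ncard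

/-- The `K`-subsets of `Fin (4 K)`. -/
abbrev D (K : ℕ) := {S : Finset (Fin (4 * K)) // S.card = K}

/-- Vertices of the clique. -/
abbrev A (K N : ℕ) := ZMod N × Fin (4 * K)

/-- Gadgets: `(j, S, T)`. -/
abbrev Ga (K N : ℕ) := ZMod N × D K × D K

/-- Vertices of a gadget: `x1, x2, y, y'` and `c i`. -/
abbrev H (K : ℕ) := Fin 4 ⊕ Fin K

/-- The vertices. -/
abbrev V (K N : ℕ) := A K N ⊕ (Ga K N × H K)

/-- `a ∈ S` -/
def inS {K N : ℕ} (g : Ga K N) (a : A K N) : Prop := a.1 = g.1 ∧ a.2 ∈ g.2.1.1

/-- `a ∈ T` -/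
def inT {K N : ℕ} (g : Ga K N) (a : A K N) : Prop := a.1 = g.1 + 1 ∧ a.2 ∈ g.2.2.1

/-- The colours of the edges: `some true` is red, `some false` is blue, `none` means no edge. Only
one of the two orders of the endpoints is used. -/
noncomputable def colH {K : ℕ} : H K → H K → Option Bool
  | Sum.inl i, Sum.inl j =>
      if i = 1 ∧ (j = 0 ∨ j = 2 ∨ j = 3) then some true
      else if i = 0 ∧ (j = 2 ∨ j = 3) then some false else none
  | Sum.inr _, Sum.inl j => if j = 2 ∨ j = 3 then some true else some false
  | _, _ => none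

/-- The same for the whole graph. -/
noncomputable def col {K N : ℕ} : V K N → V K N → Option Bool
  | Sum.inl a, Sum.inl a' => if a = a' then none else some true
  | Sum.inr (g, Sum.inl i), Sum.inl a =>
      if inS g a ∨ inT g a then (if i = 0 ∨ i = 1 then some true else some false) else none
  | Sum.inr (g, Sum.inr _), Sum.inl a =>
      if inS g a then some true else if inT g a then some false else none
  | Sum.inr (g, h), Sum.inr (g', h') => if g = g' then colH h h' else none
  | _, _ => none

lemma colH_asymm {K : ℕ} (h h' : H K) (b b' : Bool) (e : colH h h' = some b)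
    (e' : colH h' h = some b') : False := by
  rcases h with i | i <;> rcases h' with j | j
  · simp only [colH] at e e'
    revert e e'
    fin_cases i <;> (fin_cases j; all_goals simp)
  all_goals simp [colH] at e e'

lemma col_cons {K N : ℕ} (u v : V K N) (b b' : Bool) (e : col u v = some b)
    (e' : col v u = some b') : b = b' := by
  rcases u with a | ⟨g, i | i⟩ <;> rcases v with a' | ⟨g', i' | i'⟩
  · simp only [col] at e e'
    split_ifs at e e' <;> simp_all
  all_goals first
    | (simp [col] at e e'; done)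
    | (simp only [col] at e e'
       split_ifs at e e' with h1 h2
       exact absurd (colH_asymm _ _ _ _ e e') id)

/-- The graph of the edges with colour `b`. -/
def Gr (K N : ℕ) (b : Bool) : SimpleGraph (V K N) :=
  SimpleGraph.fromRel fun u v => col u v = some b

lemma adj_iff {K N : ℕ} {b : Bool} {u v : V K N} :
    (Gr K N b).Adj u v ↔ u ≠ v ∧ (col u v = some b ∨ col v u = some b) := Iff.rfl

lemma disj (K N : ℕ) : Disjoint (Gr K N true) (Gr K N false) := by
  rw [disjoint_iff]
  ext u v
  simp only [SimpleGraph.inf_adj, SimpleGraph.bot_adj, iff_false, not_and, adj_iff]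
  rintro ⟨hne, h1⟩ _ h2
  rcases h1 with h1 | h1 <;> rcases h2 with h2 | h2
  · rw [h1] at h2; simp at h2
  · exact absurd (col_cons _ _ _ _ h1 h2) (by simp)
  · exact absurd (col_cons _ _ _ _ h1 h2) (by simp)
  · rw [h1] at h2; simp at h2

section main

variable {K N : ℕ} {f : V K N → Fin 3}

/-- `S`, as a set of vertices. -/
noncomputable def SA (g : Ga K N) : Finset (V K N) := g.2.1.1.image fun r => Sum.inl (g.1, r)

/-- `T`, as a set of vertices. -/
noncomputable def TA (g : Ga K N) : Finset (V K N) := g.2.2.1.image fun r => Sum.inl (g.1 + 1, r)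

/-- The vertices `c i`. -/
noncomputable def CA (g : Ga K N) : Finset (V K N) :=
  univ.image fun i : Fin K => Sum.inr (g, Sum.inr i)

lemma SA_card (g : Ga K N) : (SA g).card = K := by
  unfold SA
  rw [card_image_of_injective _ (fun a b h => by simpa using h), g.2.1.2]

lemma TA_card (g : Ga K N) : (TA g).card = K := by
  unfold TA
  rw [card_image_of_injective _ (fun a b h => by simpa using h), g.2.2.2]

lemma CA_card (g : Ga K N) : (CA g).card = K := by
  unfold CA
  rw [card_image_of_injective _ (fun a b h => by simpa using h), card_univ, Fintype.card_fin]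

lemma mem_SA (g : Ga K N) (a : A K N) : (Sum.inl a : V K N) ∈ SA g ↔ inS g a := by
  obtain ⟨b, r⟩ := a
  simp only [SA, mem_image, inS]
  constructor
  · rintro ⟨r', hr', h⟩
    simp only [Sum.inl.injEq, Prod.mk.injEq] at h
    exact ⟨h.1.symm, h.2 ▸ hr'⟩
  · rintro ⟨h1, h2⟩
    exact ⟨r, h2, by rw [← h1]⟩

lemma mem_TA (g : Ga K N) (a : A K N) : (Sum.inl a : V K N) ∈ TA g ↔ inT g a := by
  obtain ⟨b, r⟩ := a
  simp only [TA, mem_image, inT]
  constructor
  · rintro ⟨r', hr', h⟩
    simp only [Sum.inl.injEq, Prod.mk.injEq] at h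
    exact ⟨h.1.symm, h.2 ▸ hr'⟩
  · rintro ⟨h1, h2⟩
    exact ⟨r, h2, by rw [← h1]⟩

lemma mem_CA (g g' : Ga K N) (i : Fin K) :
    (Sum.inr (g', Sum.inr i) : V K N) ∈ CA g ↔ g' = g := by
  simp only [CA, mem_image]
  constructor
  · rintro ⟨r', hr', h⟩
    simp only [Sum.inr.injEq, Prod.mk.injEq] at h
    exact h.1.symm
  · rintro rfl
    exact ⟨i, mem_univ _, rfl⟩

variable [NeZero N]

/-- Counting lemma. -/
lemma bound {G : SimpleGraph (V K N)} {v : V K N}
    (h : 2 * {u ∈ G.neighborSet v | f u = f v}.ncard ≤ (G.neighborSet v).ncard)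
    (E F : Finset (V K N)) (hE : ∀ u ∈ E, G.Adj v u ∧ f u = f v) (hF : ∀ u, G.Adj v u → u ∈ F) :
    2 * E.card ≤ F.card := by
  have h1 : E.card ≤ {u ∈ G.neighborSet v | f u = f v}.ncard := by
    rw [← Set.ncard_coe_finset]
    exact Set.ncard_le_ncard (fun u hu => hE u (by simpa using hu)) (Set.toFinite _)
  have h2 : (G.neighborSet v).ncard ≤ F.card := by
    rw [← Set.ncard_coe_finset]
    exact Set.ncard_le_ncard (fun u hu => by simpa using hF u hu) (Set.toFinite _)
  omega

/-- The four special vertices. -/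
def sp (g : Ga K N) (i : Fin 4) : V K N := Sum.inr (g, Sum.inl i)

omit [NeZero N] in
lemma not_both (hN : 1 < N) (g : Ga K N) (a : A K N) (h1 : inS g a) (h2 : inT g a) : False := by
  have : Fact (1 < N) := ⟨hN⟩
  have h : g.1 = g.1 + 1 := h1.1.symm.trans h2.1
  have h3 : (1 : ZMod N) = 0 := by
    have := congrArg (fun t => t - g.1) h
    simpa using this.symm
  exact one_ne_zero h3

omit [NeZero N] in
lemma red_c (g : Ga K N) (i : Fin K) (u : V K N) :
    (Gr K N true).Adj (Sum.inr (g, Sum.inr i)) u ↔ u ∈ SA g ∪ {sp g 2, sp g 3} := by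
  rcases u with a | ⟨g', i' | i'⟩
  · by_cases hS : inS g a <;> by_cases hT : inT g a <;>
      simp [adj_iff, col, sp, mem_SA, hS, hT]
  · by_cases hg : g = g'
    · subst hg
      fin_cases i' <;> simp [adj_iff, col, colH, sp, SA]
    · have hg' : ¬ g' = g := fun h => hg h.symm
      simp [adj_iff, col, sp, SA, hg, hg']
  · simp [adj_iff, col, colH, sp, SA]

omit [NeZero N] in
lemma blue_c (hN : 1 < N) (g : Ga K N) (i : Fin K) (u : V K N) :
    (Gr K N false).Adj (Sum.inr (g, Sum.inr i)) u ↔ u ∈ TA g ∪ {sp g 0, sp g 1} := by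
  rcases u with a | ⟨g', i' | i'⟩
  · have := not_both hN g a
    by_cases hS : inS g a <;> by_cases hT : inT g a <;>
      simp_all [adj_iff, col, sp, mem_TA]
  · by_cases hg : g = g'
    · subst hg
      fin_cases i' <;> simp [adj_iff, col, colH, sp, TA]
    · have hg' : ¬ g' = g := fun h => hg h.symm
      simp [adj_iff, col, sp, TA, hg, hg']
  · simp [adj_iff, col, colH, sp, TA]

omit [NeZero N] in
lemma red_0 (g : Ga K N) (u : V K N) :
    (Gr K N true).Adj (sp g 0) u ↔ u ∈ (SA g ∪ TA g) ∪ {sp g 1} := by
  rcases u with a | ⟨g', i' | i'⟩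
  · by_cases hS : inS g a <;> by_cases hT : inT g a <;>
      simp [adj_iff, col, sp, mem_SA, mem_TA, hS, hT]
  · by_cases hg : g = g'
    · subst hg
      fin_cases i' <;> simp [adj_iff, col, colH, sp, SA, TA]
    · have hg' : ¬ g' = g := fun h => hg h.symm
      simp [adj_iff, col, sp, SA, TA, hg, hg']
  · simp [adj_iff, col, colH, sp, SA, TA]

omit [NeZero N] in
lemma blue_0 (g : Ga K N) (u : V K N) :
    (Gr K N false).Adj (sp g 0) u ↔ u ∈ CA g ∪ {sp g 2, sp g 3} := by
  rcases u with a | ⟨g', i' | i'⟩
  · by_cases hS : inS g a <;> by_cases hT : inT g a <;>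
      simp [adj_iff, col, sp, CA, hS, hT]
  · by_cases hg : g = g'
    · subst hg
      fin_cases i' <;> simp [adj_iff, col, colH, sp, CA]
    · have hg' : ¬ g' = g := fun h => hg h.symm
      simp [adj_iff, col, sp, CA, hg, hg']
  · by_cases hg : g = g'
    · subst hg
      simp [adj_iff, col, colH, sp, CA]
    · have hg' : ¬ g' = g := fun h => hg h.symm
      simp [adj_iff, col, sp, CA, hg, hg']

omit [NeZero N] in
lemma red_1 (g : Ga K N) (u : V K N) :
    (Gr K N true).Adj (sp g 1) u ↔ u ∈ (SA g ∪ TA g) ∪ {sp g 0, sp g 2, sp g 3} := by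
  rcases u with a | ⟨g', i' | i'⟩
  · by_cases hS : inS g a <;> by_cases hT : inT g a <;>
      simp [adj_iff, col, sp, mem_SA, mem_TA, hS, hT]
  · by_cases hg : g = g'
    · subst hg
      fin_cases i' <;> simp [adj_iff, col, colH, sp, SA, TA]
    · have hg' : ¬ g' = g := fun h => hg h.symm
      simp [adj_iff, col, sp, SA, TA, hg, hg']
  · simp [adj_iff, col, colH, sp, SA, TA]

omit [NeZero N] in
lemma blue_1 (g : Ga K N) (u : V K N) :
    (Gr K N false).Adj (sp g 1) u ↔ u ∈ CA g := by
  rcases u with a | ⟨g', i' | i'⟩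
  · by_cases hS : inS g a <;> by_cases hT : inT g a <;>
      simp [adj_iff, col, sp, CA, hS, hT]
  · by_cases hg : g = g'
    · subst hg
      fin_cases i' <;> simp [adj_iff, col, colH, sp, CA]
    · have hg' : ¬ g' = g := fun h => hg h.symm
      simp [adj_iff, col, sp, CA, hg, hg']
  · by_cases hg : g = g'
    · subst hg
      simp [adj_iff, col, colH, sp, CA]
    · have hg' : ¬ g' = g := fun h => hg h.symm
      simp [adj_iff, col, sp, CA, hg, hg']

omit [NeZero N] in
lemma red_y (g : Ga K N) (i : Fin 4) (hi : i = 2 ∨ i = 3) (u : V K N) :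
    (Gr K N true).Adj (sp g i) u ↔ u ∈ CA g ∪ {sp g 1} := by
  rcases hi with rfl | rfl
  all_goals
    rcases u with a | ⟨g', i' | i'⟩
    · by_cases hS : inS g a <;> by_cases hT : inT g a <;>
        simp [adj_iff, col, sp, CA, hS, hT]
    · by_cases hg : g = g'
      · subst hg
        fin_cases i' <;> simp [adj_iff, col, colH, sp, CA]
      · have hg' : ¬ g' = g := fun h => hg h.symm
        simp [adj_iff, col, sp, CA, hg, hg']
    · by_cases hg : g = g'
      · subst hg
        simp [adj_iff, col, colH, sp, CA]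
      · have hg' : ¬ g' = g := fun h => hg h.symm
        simp [adj_iff, col, sp, CA, hg, hg']

omit [NeZero N] in
lemma blue_y (g : Ga K N) (i : Fin 4) (hi : i = 2 ∨ i = 3) (u : V K N) :
    (Gr K N false).Adj (sp g i) u ↔ u ∈ (SA g ∪ TA g) ∪ {sp g 0} := by
  rcases hi with rfl | rfl
  all_goals
    rcases u with a | ⟨g', i' | i'⟩
    · by_cases hS : inS g a <;> by_cases hT : inT g a <;>
        simp [adj_iff, col, sp, mem_SA, mem_TA, hS, hT]
    · by_cases hg : g = g'
      · subst hg
        fin_cases i' <;> simp [adj_iff, col, colH, sp, SA, TA]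
      · have hg' : ¬ g' = g := fun h => hg h.symm
        simp [adj_iff, col, sp, SA, TA, hg, hg']
    · simp [adj_iff, col, colH, sp, SA, TA]

omit [NeZero N] in
lemma sp_SA (g : Ga K N) (i : Fin 4) : sp g i ∉ SA g := by simp [sp, SA]

omit [NeZero N] in
lemma sp_TA (g : Ga K N) (i : Fin 4) : sp g i ∉ TA g := by simp [sp, TA]

lemma gadget (hK : 3 ≤ K) (hN : 1 < N) (hf : IsMajority (Gr K N true) (Gr K N false) f) (g : Ga K N)
    (p q : Fin 3) (hpq : p ≠ q) (hS : ∀ u ∈ SA g, f u = p) (hT : ∀ u ∈ TA g, f u = q) : False := by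
  have two : ∀ (X : Finset (V K N)) (a b : V K N), (X ∪ {a, b}).card ≤ X.card + 2 := fun X a b =>
    (card_union_le _ _).trans (Nat.add_le_add_left card_le_two _)
  have one : ∀ (X : Finset (V K N)) (a : V K N), (X ∪ {a}).card ≤ X.card + 1 := fun X a =>
    (card_union_le _ _).trans (by simp)
  have three : ∀ (X : Finset (V K N)) (a b c : V K N), (X ∪ {a, b, c}).card ≤ X.card + 3 :=
    fun X a b c => (card_union_le _ _).trans (Nat.add_le_add_left card_le_three _)
  have hST : (SA g ∪ TA g).card ≤ 2 * K :=
    (card_union_le _ _).trans (by rw [SA_card, TA_card]; omega)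
  -- the vertices `c i`
  have c1 : ∀ i : Fin K, f (Sum.inr (g, Sum.inr i)) ≠ p := by
    intro i hi
    have := bound (hf (Sum.inr (g, Sum.inr i))).1 (SA g) (SA g ∪ {sp g 2, sp g 3})
      (fun u hu => ⟨(red_c g i u).2 (mem_union_left _ hu), (hS u hu).trans hi.symm⟩)
      (fun u hu => (red_c g i u).1 hu)
    have h2 := two (SA g) (sp g 2) (sp g 3)
    rw [SA_card] at this h2
    omega
  have c2 : ∀ i : Fin K, f (Sum.inr (g, Sum.inr i)) ≠ q := by
    intro i hi
    have := bound (hf (Sum.inr (g, Sum.inr i))).2 (TA g) (TA g ∪ {sp g 0, sp g 1})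
      (fun u hu => ⟨(blue_c hN g i u).2 (mem_union_left _ hu), (hT u hu).trans hi.symm⟩)
      (fun u hu => (blue_c hN g i u).1 hu)
    have h2 := two (TA g) (sp g 0) (sp g 1)
    rw [TA_card] at this h2
    omega
  have c3 : ∀ s : Fin 3, s ≠ p → s ≠ q → ∀ u ∈ CA g, f u = s := by
    intro s h1 h2 u hu
    obtain ⟨i, _, rfl⟩ := mem_image.1 hu
    have h3 := c1 i
    have h4 := c2 i
    revert h1 h2 h3 h4 hpq
    generalize f (Sum.inr (g, Sum.inr i)) = t
    clear hS hT c1 c2
    revert p q s t
    decide
  -- the special vertices are not in the third part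
  have s0 : f (sp g 0) = p ∨ f (sp g 0) = q := by
    by_contra hcon
    push Not at hcon
    have hC := c3 _ hcon.1 hcon.2
    have := bound (hf (sp g 0)).2 (CA g) (CA g ∪ {sp g 2, sp g 3})
      (fun u hu => ⟨(blue_0 g u).2 (mem_union_left _ hu), hC u hu⟩)
      (fun u hu => (blue_0 g u).1 hu)
    have h2 := two (CA g) (sp g 2) (sp g 3)
    rw [CA_card] at this h2
    omega
  have s1 : f (sp g 1) = p ∨ f (sp g 1) = q := by
    by_contra hcon
    push Not at hcon
    have hC := c3 _ hcon.1 hcon.2
    have := bound (hf (sp g 1)).2 (CA g) (CA g)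
      (fun u hu => ⟨(blue_1 g u).2 hu, hC u hu⟩)
      (fun u hu => (blue_1 g u).1 hu)
    rw [CA_card] at this
    omega
  have sy : ∀ i : Fin 4, i = 2 ∨ i = 3 → (f (sp g i) = p ∨ f (sp g i) = q) := by
    intro i hi
    by_contra hcon
    push Not at hcon
    have hC := c3 _ hcon.1 hcon.2
    have := bound (hf (sp g i)).1 (CA g) (CA g ∪ {sp g 1})
      (fun u hu => ⟨(red_y g i hi u).2 (mem_union_left _ hu), hC u hu⟩)
      (fun u hu => (red_y g i hi u).1 hu)
    have h2 := one (CA g) (sp g 1)
    rw [CA_card] at this h2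
    omega
  -- `x1` and `x2` are in different parts
  have h01 : f (sp g 0) ≠ f (sp g 1) := by
    intro h
    rcases s0 with h0 | h0
    · have := bound (hf (sp g 0)).1 (insert (sp g 1) (SA g)) ((SA g ∪ TA g) ∪ {sp g 1})
        (fun u hu => by
          rcases mem_insert.1 hu with rfl | hu
          · exact ⟨(red_0 g _).2 (by simp), h.symm⟩
          · exact ⟨(red_0 g _).2 (by simp [hu]), (hS u hu).trans h0.symm⟩)
        (fun u hu => (red_0 g u).1 hu)
      have h2 := one (SA g ∪ TA g) (sp g 1)
      rw [card_insert_of_notMem (sp_SA g _), SA_card] at this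
      omega
    · have := bound (hf (sp g 0)).1 (insert (sp g 1) (TA g)) ((SA g ∪ TA g) ∪ {sp g 1})
        (fun u hu => by
          rcases mem_insert.1 hu with rfl | hu
          · exact ⟨(red_0 g _).2 (by simp), h.symm⟩
          · exact ⟨(red_0 g _).2 (by simp [hu]), (hT u hu).trans h0.symm⟩)
        (fun u hu => (red_0 g u).1 hu)
      have h2 := one (SA g ∪ TA g) (sp g 1)
      rw [card_insert_of_notMem (sp_TA g _), TA_card] at this
      omega
  -- `x1` and `y`, `y'` are in different parts
  have hy : ∀ i : Fin 4, i = 2 ∨ i = 3 → f (sp g 0) ≠ f (sp g i) := by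
    intro i hi h
    rcases s0 with h0 | h0
    · have := bound (hf (sp g i)).2 (insert (sp g 0) (SA g)) ((SA g ∪ TA g) ∪ {sp g 0})
        (fun u hu => by
          rcases mem_insert.1 hu with rfl | hu
          · exact ⟨(blue_y g i hi _).2 (by simp), h⟩
          · exact ⟨(blue_y g i hi _).2 (by simp [hu]), (hS u hu).trans (h0.symm.trans h)⟩)
        (fun u hu => (blue_y g i hi u).1 hu)
      have h2 := one (SA g ∪ TA g) (sp g 0)
      rw [card_insert_of_notMem (sp_SA g _), SA_card] at this
      omega
    · have := bound (hf (sp g i)).2 (insert (sp g 0) (TA g)) ((SA g ∪ TA g) ∪ {sp g 0})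
        (fun u hu => by
          rcases mem_insert.1 hu with rfl | hu
          · exact ⟨(blue_y g i hi _).2 (by simp), h⟩
          · exact ⟨(blue_y g i hi _).2 (by simp [hu]), (hT u hu).trans (h0.symm.trans h)⟩)
        (fun u hu => (blue_y g i hi u).1 hu)
      have h2 := one (SA g ∪ TA g) (sp g 0)
      rw [card_insert_of_notMem (sp_TA g _), TA_card] at this
      omega
  -- so `y`, `y'` and `x2` are in the same part
  have key : ∀ a b c : Fin 3, (a = p ∨ a = q) → (b = p ∨ b = q) → (c = p ∨ c = q) → a ≠ b → a ≠ c →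
      b = c := by
    intro a b c ha hb hc hab hac
    rcases ha with rfl | rfl <;> rcases hb with rfl | rfl <;> rcases hc with rfl | rfl <;>
      first | rfl | exact absurd rfl hab | exact absurd rfl hac
  have e2 : f (sp g 2) = f (sp g 1) :=
    (key _ _ _ s0 s1 (sy 2 (Or.inl rfl)) h01 (hy 2 (Or.inl rfl))).symm
  have e3 : f (sp g 3) = f (sp g 1) :=
    (key _ _ _ s0 s1 (sy 3 (Or.inr rfl)) h01 (hy 3 (Or.inr rfl))).symm
  have h23 : sp g 2 ≠ sp g 3 := by simp [sp]
  rcases s1 with h1 | h1
  · have := bound (hf (sp g 1)).1 (insert (sp g 2) (insert (sp g 3) (SA g)))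
      ((SA g ∪ TA g) ∪ {sp g 0, sp g 2, sp g 3})
      (fun u hu => by
        rcases mem_insert.1 hu with rfl | hu
        · exact ⟨(red_1 g _).2 (by simp), e2⟩
        · rcases mem_insert.1 hu with rfl | hu
          · exact ⟨(red_1 g _).2 (by simp), e3⟩
          · exact ⟨(red_1 g _).2 (by simp [hu]), (hS u hu).trans h1.symm⟩)
      (fun u hu => (red_1 g u).1 hu)
    have h2 := three (SA g ∪ TA g) (sp g 0) (sp g 2) (sp g 3)
    rw [card_insert_of_notMem (by simp [h23, sp_SA]), card_insert_of_notMem (sp_SA g _),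
      SA_card] at this
    omega
  · have := bound (hf (sp g 1)).1 (insert (sp g 2) (insert (sp g 3) (TA g)))
      ((SA g ∪ TA g) ∪ {sp g 0, sp g 2, sp g 3})
      (fun u hu => by
        rcases mem_insert.1 hu with rfl | hu
        · exact ⟨(red_1 g _).2 (by simp), e2⟩
        · rcases mem_insert.1 hu with rfl | hu
          · exact ⟨(red_1 g _).2 (by simp), e3⟩
          · exact ⟨(red_1 g _).2 (by simp [hu]), (hT u hu).trans h1.symm⟩)
      (fun u hu => (red_1 g u).1 hu)
    have h2 := three (SA g ∪ TA g) (sp g 0) (sp g 2) (sp g 3)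
    rw [card_insert_of_notMem (by simp [h23, sp_TA]), card_insert_of_notMem (sp_TA g _),
      TA_card] at this
    omega

/-- The number of vertices of block `b` in part `i`. -/
noncomputable def cnt (f : V K N → Fin 3) (b : ZMod N) (i : Fin 3) : ℕ :=
  (univ.filter fun r : Fin (4 * K) => f (Sum.inl (b, r)) = i).card

omit [NeZero N] in
lemma cnt_sum (b : ZMod N) : cnt f b 0 + cnt f b 1 + cnt f b 2 = 4 * K := by
  have h := card_eq_sum_card_fiberwise (s := (univ : Finset (Fin (4 * K))))
    (t := (univ : Finset (Fin 3))) (f := fun r => f (Sum.inl (b, r))) (fun _ _ => mem_univ _)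
  rw [card_univ, Fintype.card_fin, Fin.sum_univ_three] at h
  exact h.symm

lemma cross (hK : 3 ≤ K) (hN : 1 < N) (hf : IsMajority (Gr K N true) (Gr K N false) f) (b : ZMod N)
    (p q : Fin 3) (hp : K ≤ cnt f b p) (hq : K ≤ cnt f (b + 1) q) : p = q := by
  by_contra hpq
  obtain ⟨S, hS, hSK⟩ := exists_subset_card_eq hp
  obtain ⟨T, hT, hTK⟩ := exists_subset_card_eq hq
  refine gadget hK hN hf (b, ⟨S, hSK⟩, ⟨T, hTK⟩) p q hpq ?_ ?_
  · intro u hu
    obtain ⟨r, hr, rfl⟩ := mem_image.1 hu
    exact (mem_filter.1 (hS hr)).2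
  · intro u hu
    obtain ⟨r, hr, rfl⟩ := mem_image.1 hu
    exact (mem_filter.1 (hT hr)).2

lemma blocks (hK : 3 ≤ K) (hN : 1 < N) (hf : IsMajority (Gr K N true) (Gr K N false) f) :
    ∃ i : Fin 3, ∀ b : ZMod N, 2 * K + 2 ≤ cnt f b i := by
  have hτ : ∀ b : ZMod N, ∃ i : Fin 3, K ≤ cnt f b i := by
    intro b
    by_contra hcon
    push Not at hcon
    have h0 := hcon 0
    have h1 := hcon 1
    have h2 := hcon 2
    have := cnt_sum (f := f) b
    omega
  choose τ hτ using hτ
  have step : ∀ b, τ (b + 1) = τ b := fun b => (cross hK hN hf b _ _ (hτ b) (hτ (b + 1))).symm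
  have hn : ∀ n : ℕ, τ (n : ZMod N) = τ 0 := by
    intro n
    induction n with
    | zero => simp
    | succ n ih => rw [Nat.cast_succ, step, ih]
  have hall : ∀ b, τ b = τ 0 := fun b => by
    rw [← ZMod.natCast_zmod_val b]
    exact hn _
  refine ⟨τ 0, fun b => ?_⟩
  have hb : b = (b - 1) + 1 := by ring
  have hlt : ∀ q, q ≠ τ 0 → cnt f b q < K := by
    intro q hq
    by_contra hcon
    push Not at hcon
    rw [hb] at hcon
    have := cross hK hN hf (b - 1) _ q (hτ (b - 1)) hcon
    rw [hall] at this
    exact hq this.symm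
  have h3 := cnt_sum (f := f) b
  have h0 := hlt 0
  have h1 := hlt 1
  have h2 := hlt 2
  generalize τ 0 = t at h0 h1 h2 ⊢
  fin_cases t
  · have := h1 (by decide)
    have := h2 (by decide)
    show 2 * K + 2 ≤ cnt f b 0
    omega
  · have := h0 (by decide)
    have := h2 (by decide)
    show 2 * K + 2 ≤ cnt f b 1
    omega
  · have := h0 (by decide)
    have := h1 (by decide)
    show 2 * K + 2 ≤ cnt f b 2
    omega

/-- Bound for the number of gadget vertices adjacent to a vertex of the clique. -/
def gd (K : ℕ) : ℕ := 2 * Fintype.card (D K × D K) * Fintype.card (H K)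

lemma no_majority (hK : 3 ≤ K) (hN : gd K + 2 ≤ N) (f : V K N → Fin 3) :
    ¬ IsMajority (Gr K N true) (Gr K N false) f := by
  intro hf
  obtain ⟨i, hi⟩ := blocks hK (by omega) hf
  -- the part `i` of the clique
  set P : Finset (A K N) := univ.filter fun a => f (Sum.inl a) = i with hP
  have hPc : N * (2 * K + 2) ≤ P.card := by
    have h1 := card_eq_sum_card_fiberwise (s := P) (t := (univ : Finset (ZMod N)))
      (f := fun a => a.1) (fun _ _ => mem_univ _)
    have h2 : ∀ b : ZMod N, cnt f b i ≤ (P.filter fun a => a.1 = b).card := by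
      intro b
      refine card_le_card_of_injOn (fun r => (b, r)) ?_ (fun r _ r' _ h => by simpa using h)
      intro r hr
      have hr := (mem_filter.1 hr).2
      simp [hP, hr]
    rw [h1]
    calc N * (2 * K + 2) = ∑ _b : ZMod N, (2 * K + 2) := by
          rw [sum_const, card_univ, ZMod.card, smul_eq_mul]
      _ ≤ _ := sum_le_sum fun b _ => (hi b).trans (h2 b)
  have hpos : 0 < P.card := lt_of_lt_of_le (Nat.mul_pos (by omega) (by omega)) hPc
  obtain ⟨a, ha⟩ := card_pos.1 hpos
  have hai : f (Sum.inl a) = i := (mem_filter.1 ha).2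
  set F2 : Finset (V K N) := (((({a.1, a.1 - 1} : Finset (ZMod N)) ×ˢ
    (univ : Finset (D K × D K))) ×ˢ (univ : Finset (H K))).image fun t => Sum.inr t) with hF2
  have hF2c : F2.card ≤ gd K := by
    refine card_image_le.trans ?_
    rw [card_product, card_product, card_univ, card_univ, gd]
    gcongr
    exact card_le_two
  have := bound (hf (Sum.inl a)).1 ((P.erase a).image Sum.inl)
    (((univ.erase a).image Sum.inl) ∪ F2)
    (fun u hu => by
      obtain ⟨a', ha', rfl⟩ := mem_image.1 hu
      have h1 := mem_erase.1 ha'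
      have h2 := (mem_filter.1 h1.2).2
      refine ⟨?_, h2.trans hai.symm⟩
      have h3 : ¬ a = a' := fun h => h1.1 h.symm
      simp [adj_iff, col, h3])
    (fun u hu => by
      rcases u with a' | ⟨g, h⟩
      · refine mem_union_left _ (mem_image.2 ⟨a', mem_erase.2 ⟨?_, mem_univ _⟩, rfl⟩)
        rintro rfl
        exact (adj_iff.1 hu).1 rfl
      · refine mem_union_right _ (mem_image.2 ⟨(g, h), ?_, rfl⟩)
        have hg : inS g a ∨ inT g a := by
          by_contra hcon
          push Not at hcon
          rcases h with j | j <;> simp [adj_iff, col, hcon.1, hcon.2] at hu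
        simp only [mem_product, mem_univ, and_true, mem_insert, mem_singleton]
        rcases hg with hg | hg
        · exact Or.inl hg.1.symm
        · right
          rw [hg.1]
          ring)
  rw [card_image_of_injective _ Sum.inl_injective, card_erase_of_mem ha] at this
  have h2 : ((((univ : Finset (A K N)).erase a).image Sum.inl) ∪ F2).card ≤
      (N * (4 * K) - 1) + gd K := by
    refine (card_union_le _ _).trans (Nat.add_le_add ?_ hF2c)
    rw [card_image_of_injective _ Sum.inl_injective, card_erase_of_mem (mem_univ _), card_univ,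
      Fintype.card_prod, ZMod.card, Fintype.card_fin]
  have h3 : N * (2 * K + 2) * 2 = N * (4 * K) + 4 * N := by ring
  have h4 : 0 < N * (4 * K) := Nat.mul_pos (by omega) (by omega)
  omega

lemma deg {G : SimpleGraph (V K N)} {v : V K N} (E : Finset (V K N)) (hE : E.card = K)
    (h : ∀ u ∈ E, G.Adj v u) : K ≤ (G.neighborSet v).ncard := by
  have h1 : E.card ≤ (G.neighborSet v).ncard := by
    rw [← Set.ncard_coe_finset]
    exact Set.ncard_le_ncard (fun u hu => h u (by simpa using hu)) (Set.toFinite _)
  omega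

lemma deg_red (hN : 1 < N) (v : V K N) : K ≤ ((Gr K N true).neighborSet v).ncard := by
  rcases v with a | ⟨g, i | i⟩
  · have : Fact (1 < N) := ⟨hN⟩
    have h1 : ((univ : Finset (Fin (4 * K))).image fun r => (Sum.inl (a.1 + 1, r) : V K N)).card =
        4 * K := by
      rw [card_image_of_injective _ (fun a b h => by simpa using h), card_univ, Fintype.card_fin]
    obtain ⟨E, hE, hEK⟩ := exists_subset_card_eq (n := K) (by rw [h1]; omega)
    refine deg E hEK fun u hu => ?_
    obtain ⟨r, _, rfl⟩ := mem_image.1 (hE hu)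
    have h2 : a ≠ (a.1 + 1, r) := by
      intro h
      have h3 := congrArg (fun t => t.1 - a.1) h
      simp at h3
    simp [adj_iff, col, h2]
  · fin_cases i
    · exact deg (SA g) (SA_card g) fun u hu => (red_0 g u).2 (by simp [hu])
    · exact deg (SA g) (SA_card g) fun u hu => (red_1 g u).2 (by simp [hu])
    · exact deg (CA g) (CA_card g) fun u hu => (red_y g 2 (by simp) u).2 (by simp [hu])
    · exact deg (CA g) (CA_card g) fun u hu => (red_y g 3 (by simp) u).2 (by simp [hu])
  · exact deg (SA g) (SA_card g) fun u hu => (red_c g i u).2 (by simp [hu])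

lemma deg_blue (hK : 3 ≤ K) (hN : 1 < N) (v : V K N) :
    K ≤ ((Gr K N false).neighborSet v).ncard := by
  rcases v with a | ⟨g, i | i⟩
  · obtain ⟨T, hT, hTK⟩ := exists_superset_card_eq (s := {a.2}) (n := K) (by simp; omega)
      (by simp; omega)
    set g : Ga K N := (a.1 - 1, ⟨T, hTK⟩, ⟨T, hTK⟩) with hg
    refine deg (CA g) (CA_card g) fun u hu => ?_
    obtain ⟨i, _, rfl⟩ := mem_image.1 hu
    refine ((blue_c hN g i _).2 (mem_union_left _ ?_)).symm
    rw [mem_TA]
    refine ⟨?_, hT (by simp)⟩
    simp [hg]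
  · fin_cases i
    · exact deg (CA g) (CA_card g) fun u hu => (blue_0 g u).2 (by simp [hu])
    · exact deg (CA g) (CA_card g) fun u hu => (blue_1 g u).2 hu
    · exact deg (SA g) (SA_card g) fun u hu => (blue_y g 2 (by simp) u).2 (by simp [hu])
    · exact deg (SA g) (SA_card g) fun u hu => (blue_y g 3 (by simp) u).2 (by simp [hu])
  · exact deg (TA g) (TA_card g) fun u hu => (blue_c hN g i u).2 (by simp [hu])

end main

/-- For every `k` there is a finite 2-edge-coloured graph (red edges `R`, blue edges `B`) in which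
every vertex has red degree at least `k` and blue degree at least `k`, but which has no majority
3-partition. -/
theorem result (k : ℕ) : ∃ (V : Type) (_ : Finite V) (R B : SimpleGraph V), Disjoint R B ∧
    (∀ v, k ≤ (R.neighborSet v).ncard) ∧ (∀ v, k ≤ (B.neighborSet v).ncard) ∧
    ¬ ∃ f : V → Fin 3, IsMajority R B f := by
  have hN : NeZero (gd (k + 3) + 2) := ⟨by omega⟩
  refine ⟨V (k + 3) (gd (k + 3) + 2), inferInstance, Gr _ _ true, Gr _ _ false, disj _ _, ?_, ?_, ?_⟩
  · intro v
    have := deg_red (K := k + 3) (by omega) v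
    omega
  · intro v
    have := deg_blue (K := k + 3) (by omega) (by omega) v
    omega
  · rintro ⟨f, hf⟩
    exact no_majority (by omega) le_rfl f hf

end Pool.Agent.Results.MP_0e3695_co.NoDegreeCondition
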